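import Mathlib
import Pool.Agent.Helper50.PR.Defs

/-!
# The two real inequalities for the prime-representing polynomial (PR-5, PR-6)
-/

open Finset

namespace Pool.Agent.Helper50.PR

namespace Ineq

theorem size_L {n : ℕ} (hn : 3 ≤ n) :
    1000 * (n : ℝ) * (n.factorial : ℝ) ≤ (100 : ℝ) ^ n * (n : ℝ) ^ (2 * n) := by
  have hn' : (3 : ℝ) ≤ n := by exact_mod_cast hn
  have h1 : (1000 : ℝ) ≤ (100 : ℝ) ^ n := by
    calc (1000 : ℝ) ≤ 100 ^ 3 := by norm_num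
      _ ≤ 100 ^ n := pow_le_pow_right₀ (by norm_num) hn
  have h2 : (n.factorial : ℝ) ≤ (n : ℝ) ^ n := by
    exact_mod_cast Nat.factorial_le_pow n
  have h3 : (n : ℝ) ≤ (n : ℝ) ^ n := by
    calc (n : ℝ) = (n : ℝ) ^ 1 := (pow_one _).symm
      _ ≤ (n : ℝ) ^ n := pow_le_pow_right₀ (by linarith) (by omega)
  have h4 : (n : ℝ) ^ (2 * n) = (n : ℝ) ^ n * (n : ℝ) ^ n := by
    rw [two_mul, pow_add]
  have h5 : (0 : ℝ) < n.factorial := by exact_mod_cast Nat.factorial_pos n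
  rw [h4, mul_assoc]
  apply mul_le_mul h1 _ (by positivity) (by positivity)
  exact mul_le_mul h3 h2 h5.le (by positivity)

theorem D_le_U {n : ℕ} (hn : 3 ≤ n) {Q C : ℝ} (hQ : 100 ≤ Q)
    (hC2 : C ≤ (Q ^ 3 - 3 * Q) ^ n) : C * (1 - 3 / Q) ≤ (Q - 1 / n) ^ (3 * n) := by
  have hn' : (3 : ℝ) ≤ n := by exact_mod_cast hn
  have hn0 : (0 : ℝ) < n := by linarith
  have hQ0 : 0 < Q := by linarith
  have e1 : (Q - 1 / n) = Q * (1 + (-(1 / (n * Q)))) := by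
    field_simp
    ring
  rw [e1, mul_pow]
  have hx : 1 / (n * Q) ≤ 1 := by
    rw [div_le_one (by positivity)]
    nlinarith
  have b1 : 1 + ((3 * n : ℕ) : ℝ) * (-(1 / (n * Q))) ≤ (1 + (-(1 / (n * Q)))) ^ (3 * n) :=
    one_add_mul_le_pow (by linarith) _
  have e2 : 1 + ((3 * n : ℕ) : ℝ) * (-(1 / (n * Q))) = 1 - 3 / Q := by
    push_cast
    field_simp
    ring
  rw [e2] at b1
  have hC3 : C ≤ Q ^ (3 * n) := by
    calc C ≤ (Q ^ 3 - 3 * Q) ^ n := hC2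
      _ ≤ (Q ^ 3) ^ n := by
        apply pow_le_pow_left₀
        · nlinarith [sq_nonneg Q, mul_pos hQ0 hQ0]
        · linarith
      _ = Q ^ (3 * n) := by rw [← pow_mul]
  have h3 : 0 ≤ 1 - 3 / Q := by
    have : 3 / Q ≤ 1 := by
      rw [div_le_one hQ0]
      linarith
    linarith
  exact mul_le_mul hC3 b1 h3 (by positivity)

theorem U_le_D {n : ℕ} (hn : 3 ≤ n) {Q C : ℝ} (hQ : 100 * (n : ℝ) ≤ Q)
    (hC1 : (Q ^ 3 - 3 * Q - 1) ^ n ≤ C) :
    (Q - 1 / n) ^ (3 * n) * (1 - (4 * n + 9) / Q ^ 2) ≤ C * (1 - 3 / Q) := by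
  have hn' : (3 : ℝ) ≤ n := by exact_mod_cast hn
  have hn0 : (0 : ℝ) < n := by linarith
  have hQ0 : 0 < Q := by linarith
  have hQ100 : 100 ≤ Q := by linarith
  have e1 : (Q - 1 / n) = Q * (1 - (1 / (n * Q))) := by
    field_simp
  have hx : 1 / (n * Q) ≤ 1 := by
    rw [div_le_one (by positivity)]
    nlinarith
  have hx0 : 0 < 1 / (n * Q) := by positivity
  set x : ℝ := 1 / (n * Q) with hxdef
  -- u (1 + 3/Q) ≤ 1
  have hu0 : 0 ≤ (1 - x) ^ (3 * n) := pow_nonneg (by linarith) _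
  have b1 : 1 + ((3 * n : ℕ) : ℝ) * x ≤ (1 + x) ^ (3 * n) :=
    one_add_mul_le_pow (by linarith) _
  have e2 : ((3 * n : ℕ) : ℝ) * x = 3 / Q := by
    rw [hxdef]
    push_cast
    field_simp
  rw [e2] at b1
  have b2 : (1 - x) ^ (3 * n) * (1 + 3 / Q) ≤ 1 := by
    calc (1 - x) ^ (3 * n) * (1 + 3 / Q) ≤ (1 - x) ^ (3 * n) * (1 + x) ^ (3 * n) :=
          mul_le_mul_of_nonneg_left b1 hu0
      _ = ((1 - x) * (1 + x)) ^ (3 * n) := by rw [mul_pow]
      _ ≤ 1 ^ (3 * n) := by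
        apply pow_le_pow_left₀
        · apply mul_nonneg <;> linarith
        · nlinarith
      _ = 1 := one_pow _
  have h3Q : 0 < 1 - 3 / Q := by
    have : 3 / Q < 1 := by
      rw [div_lt_one hQ0]
      linarith
    linarith
  have b3 : (1 - x) ^ (3 * n) * (1 - 9 / Q ^ 2) ≤ 1 - 3 / Q := by
    have : (1 - x) ^ (3 * n) * (1 - 9 / Q ^ 2)
        = ((1 - x) ^ (3 * n) * (1 + 3 / Q)) * (1 - 3 / Q) := by
      field_simp
      ring
    rw [this]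
    nlinarith
  have h4 : 4 * (n : ℝ) / Q ^ 2 ≤ 1 := by
    rw [div_le_one (by positivity)]
    nlinarith
  have b4 : Q ^ (3 * n) * (1 - 4 * n / Q ^ 2) ≤ C := by
    refine le_trans ?_ hC1
    have c1 : (Q ^ 3 * (1 + (-(4 / Q ^ 2)))) ^ n ≤ (Q ^ 3 - 3 * Q - 1) ^ n := by
      apply pow_le_pow_left₀
      · apply mul_nonneg (by positivity)
        have : 4 / Q ^ 2 ≤ 1 := by
          rw [div_le_one (by positivity)]
          nlinarith
        linarith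
      · have : Q ^ 3 * (1 + (-(4 / Q ^ 2))) = Q ^ 3 - 4 * Q := by
          field_simp
          ring
        rw [this]
        linarith
    refine le_trans ?_ c1
    rw [mul_pow, ← pow_mul]
    apply mul_le_mul_of_nonneg_left _ (by positivity)
    have : 4 / Q ^ 2 ≤ 1 := by
      rw [div_le_one (by positivity)]
      nlinarith
    have c2 : 1 + (n : ℝ) * (-(4 / Q ^ 2)) ≤ (1 + (-(4 / Q ^ 2))) ^ n :=
      one_add_mul_le_pow (by linarith) _
    have c3 : 1 + (n : ℝ) * (-(4 / Q ^ 2)) = 1 - 4 * n / Q ^ 2 := by ring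
    rw [c3] at c2
    exact c2
  have h9 : 9 / Q ^ 2 ≤ 1 := by
    rw [div_le_one (by positivity)]
    nlinarith
  have h90 : 0 ≤ 9 / Q ^ 2 := by positivity
  have h40 : 0 ≤ 4 * (n : ℝ) / Q ^ 2 := by positivity
  rw [e1, mul_pow]
  have hfin : 1 - (4 * n + 9) / Q ^ 2 ≤ (1 - 4 * n / Q ^ 2) * (1 - 9 / Q ^ 2) := by
    have : (4 * n + 9) / Q ^ 2 = 4 * n / Q ^ 2 + 9 / Q ^ 2 := by rw [add_div]
    rw [this]
    nlinarith
  calc Q ^ (3 * n) * (1 - x) ^ (3 * n) * (1 - (4 * n + 9) / Q ^ 2)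
      ≤ Q ^ (3 * n) * (1 - x) ^ (3 * n) * ((1 - 4 * n / Q ^ 2) * (1 - 9 / Q ^ 2)) :=
        mul_le_mul_of_nonneg_left hfin (by positivity)
    _ = (Q ^ (3 * n) * (1 - 4 * n / Q ^ 2)) * ((1 - x) ^ (3 * n) * (1 - 9 / Q ^ 2)) := by ring
    _ ≤ C * (1 - 3 / Q) := by
        apply mul_le_mul b4 b3
        · apply mul_nonneg hu0
          linarith
        · refine le_trans ?_ b4
          apply mul_nonneg (by positivity)
          linarith

theorem W_bounds {n : ℕ} (hn : 3 ≤ n) {z Z : ℝ} (hz : 100 * (n : ℝ) ≤ z)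
    (hZ1 : z ^ n - n * z ^ (n - 2) ≤ Z) (hZ2 : Z ≤ z ^ n) :
    0 < Z ∧ z ^ (3 * n) * (1 - 3 * n / z ^ 2) ≤ Z ^ 3 ∧ Z ^ 3 ≤ z ^ (3 * n) := by
  have hn' : (3 : ℝ) ≤ n := by exact_mod_cast hn
  have hn0 : (0 : ℝ) < n := by linarith
  have hz0 : 0 < z := by linarith
  have e1 : z ^ n = z ^ (n - 2) * z ^ 2 := by
    rw [← pow_add]
    congr 1
    omega
  have hzn : 0 < z ^ n := by positivity
  have h1 : (n : ℝ) / z ^ 2 < 1 := by
    rw [div_lt_one (by positivity)]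
    nlinarith
  have h10 : 0 < (n : ℝ) / z ^ 2 := by positivity
  have e2 : z ^ n - n * z ^ (n - 2) = z ^ n * (1 - n / z ^ 2) := by
    rw [e1]
    field_simp
  rw [e2] at hZ1
  have hZ0 : 0 < Z := lt_of_lt_of_le (mul_pos hzn (by linarith)) hZ1
  refine ⟨hZ0, ?_, ?_⟩
  · have c1 : (z ^ n * (1 - n / z ^ 2)) ^ 3 ≤ Z ^ 3 :=
      pow_le_pow_left₀ (mul_nonneg hzn.le (by linarith)) hZ1 3
    refine le_trans ?_ c1
    rw [mul_pow, ← pow_mul, mul_comm n 3]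
    apply mul_le_mul_of_nonneg_left _ (by positivity)
    have c2 : 1 + ((3 : ℕ) : ℝ) * (-(n / z ^ 2)) ≤ (1 + (-(n / z ^ 2))) ^ 3 :=
      one_add_mul_le_pow (by linarith) 3
    have c3 : 1 + ((3 : ℕ) : ℝ) * (-(n / z ^ 2)) = 1 - 3 * n / z ^ 2 := by
      push_cast
      ring
    have c4 : (1 + (-((n : ℝ) / z ^ 2))) = 1 - n / z ^ 2 := by ring
    rw [c3, c4] at c2
    exact c2
  · calc Z ^ 3 ≤ (z ^ n) ^ 3 := pow_le_pow_left₀ hZ0.le hZ2 3
      _ = z ^ (3 * n) := by rw [← pow_mul, mul_comm]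

theorem qD_eq {n A Z Q C : ℝ} (hA : A ≠ 0) (hQ : Q ≠ 0) :
    qD n A Z Q C = A ^ 6 * ((Z ^ 3) ^ 2 -
      A * (Q * (C * (1 - 3 / Q) - Z ^ 3 * (1 + n / A) ^ 3)) ^ 2) := by
  unfold qD
  field_simp

theorem zeta_le {n : ℕ} (hn : 3 ≤ n) {A z ζ : ℝ} (hA : 100 * (n : ℝ) ≤ A) (hz : 0 < z)
    (hζ0 : 0 < ζ) (hζ : ζ ^ n = z ^ n * (1 + n / A)) : z ≤ ζ ∧ ζ ≤ z * (1 + n / A) := by
  have hn' : (3 : ℝ) ≤ n := by exact_mod_cast hn
  have hn0 : (0 : ℝ) < n := by linarith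
  have hA0 : 0 < A := by linarith
  have h1 : 0 < (n : ℝ) / A := by positivity
  constructor
  · apply le_of_pow_le_pow_left₀ (n := n) (by omega) hζ0.le
    rw [hζ]
    have : 0 < z ^ n := by positivity
    nlinarith
  · apply le_of_pow_le_pow_left₀ (n := n) (by omega) (by positivity)
    rw [hζ, mul_pow]
    apply mul_le_mul_of_nonneg_left _ (by positivity)
    calc (1 + n / A) = (1 + n / A) ^ 1 := (pow_one _).symm
      _ ≤ (1 + n / A) ^ n := pow_le_pow_right₀ (by linarith) (by omega)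

theorem V_eq {n : ℕ} {A z ζ : ℝ} (hζ : ζ ^ n = z ^ n * (1 + n / A)) :
    ζ ^ (3 * n) = z ^ (3 * n) * (1 + n / A) ^ 3 := by
  rw [mul_comm 3 n, pow_mul, hζ, mul_pow, ← pow_mul]

theorem case1 {n ζ Q d V U D W : ℝ} (hn : 3 ≤ n) (hd0 : 0 < d) (hd1 : d ≤ 1)
    (hζ : 3 * n ≤ ζ) (hQζ : ζ ≤ Q) (hQ9 : 4 * n + 9 ≤ Q) (hQd : 2 * (4 * n + 9) ≤ n * d * Q)
    (u2 : V * (1 + 3 * n * (d / ζ)) ≤ U) (hD1 : U * (1 - (4 * n + 9) / Q ^ 2) ≤ D)
    (hWV : W ≤ V) (hV : 0 < V) : n * d * V ≤ Q * (D - W) := by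
  have hζ0 : 0 < ζ := by linarith
  have hQ0 : 0 < Q := by linarith
  obtain ⟨s, hs⟩ : ∃ s, s = 3 * n * (d / ζ) := ⟨_, rfl⟩
  obtain ⟨r, hr⟩ : ∃ r, r = (4 * n + 9) / Q ^ 2 := ⟨_, rfl⟩
  rw [← hs] at u2
  rw [← hr] at hD1
  have hs0 : 0 ≤ s := by rw [hs]; positivity
  have hr0 : 0 ≤ r := by rw [hr]; positivity
  have hs1 : s ≤ 1 := by
    rw [hs, mul_div_assoc', div_le_one hζ0]
    have : 3 * n * d ≤ 3 * n * 1 := mul_le_mul_of_nonneg_left hd1 (by linarith)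
    linarith
  have hr1 : r ≤ 1 := by
    rw [hr, div_le_one (by positivity)]
    have : Q * 1 ≤ Q * Q := mul_le_mul_of_nonneg_left (by linarith) hQ0.le
    rw [sq]
    linarith
  have hQr : Q * (2 * r) = 2 * (4 * n + 9) / Q := by
    rw [hr]
    field_simp
  have hQs : 3 * n * d ≤ Q * s := by
    have e : 3 * n * d = ζ * s := by
      rw [hs]
      field_simp
    rw [e]
    exact mul_le_mul_of_nonneg_right hQζ hs0
  have hq2 : 2 * (4 * n + 9) / Q ≤ n * d := by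
    rw [div_le_iff₀ hQ0]
    exact hQd
  have hnd : 0 < n * d := mul_pos (by linarith) hd0
  have a1 : V * (1 + s) * (1 - r) ≤ D :=
    le_trans (mul_le_mul_of_nonneg_right u2 (by linarith)) hD1
  have a2 : V * (1 + (s - 2 * r)) ≤ V * ((1 + s) * (1 - r)) := by
    apply mul_le_mul_of_nonneg_left _ hV.le
    have : s * r ≤ 1 * r := mul_le_mul_of_nonneg_right hs1 hr0
    linarith
  have a3 : V * (s - 2 * r) ≤ D - W := by
    have e1 : V * (1 + (s - 2 * r)) = V + V * (s - 2 * r) := by ring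
    have e2 : V * ((1 + s) * (1 - r)) = V * (1 + s) * (1 - r) := by ring
    linarith
  have a4 : n * d ≤ Q * (s - 2 * r) := by
    rw [mul_sub, hQr]
    linarith
  calc n * d * V ≤ (Q * (s - 2 * r)) * V := mul_le_mul_of_nonneg_right a4 hV.le
    _ = Q * (V * (s - 2 * r)) := by ring
    _ ≤ Q * (D - W) := mul_le_mul_of_nonneg_left a3 hQ0.le

theorem case2 {n z Q d V U D W : ℝ} (hn : 3 ≤ n) (hd0 : 0 < d) (hd1 : d ≤ 1)
    (hQ : 3 * n ≤ Q) (hQz : Q ≤ 2 * z) (hdz : 12 ≤ d * z)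
    (u2 : U * (1 + 3 * n * (d / Q)) ≤ V) (hD2 : D ≤ U) (hU : 0 < U)
    (hVW : V * (1 - 3 * n / z ^ 2) ≤ W) (hV : 0 < V) : n * d * V ≤ Q * (W - D) := by
  have hQ0 : 0 < Q := by linarith
  have hz0 : 0 < z := by linarith
  obtain ⟨t, ht⟩ : ∃ t, t = 3 * n * (d / Q) := ⟨_, rfl⟩
  obtain ⟨r, hr⟩ : ∃ r, r = 3 * n / z ^ 2 := ⟨_, rfl⟩
  rw [← ht] at u2
  rw [← hr] at hVW
  have ht0 : 0 ≤ t := by rw [ht]; positivity
  have ht1 : t ≤ 1 := by
    rw [ht, mul_div_assoc', div_le_one hQ0]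
    have : 3 * n * d ≤ 3 * n * 1 := mul_le_mul_of_nonneg_left hd1 (by linarith)
    linarith
  have u3 : U ≤ V * (1 - t / 2) := by
    calc U = U * 1 := (mul_one _).symm
      _ ≤ U * ((1 + t) * (1 - t / 2)) := by
        apply mul_le_mul_of_nonneg_left _ hU.le
        nlinarith
      _ = (U * (1 + t)) * (1 - t / 2) := by ring
      _ ≤ V * (1 - t / 2) := mul_le_mul_of_nonneg_right u2 (by linarith)
  have a1 : V * (t / 2 - r) ≤ W - D := by
    have e1 : V * (t / 2 - r) = V * (1 - r) - V * (1 - t / 2) := by ring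
    linarith
  have hQt : Q * (t / 2) = 3 / 2 * (n * d) := by
    rw [ht]
    field_simp
  have hQr : Q * r ≤ n * d / 2 := by
    rw [hr, mul_div_assoc', div_le_iff₀ (by positivity)]
    have b1 : Q * (3 * n) ≤ 2 * z * (3 * n) := mul_le_mul_of_nonneg_right hQz (by linarith)
    have b3 : n * z * 12 ≤ n * z * (d * z) := mul_le_mul_of_nonneg_left hdz (by positivity)
    have e : n * d / 2 * z ^ 2 = n * z * (d * z) / 2 := by ring
    rw [e]
    linarith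
  have a4 : n * d ≤ Q * (t / 2 - r) := by
    rw [mul_sub, hQt]
    linarith
  calc n * d * V ≤ (Q * (t / 2 - r)) * V := mul_le_mul_of_nonneg_right a4 hV.le
    _ = Q * (V * (t / 2 - r)) := by ring
    _ ≤ Q * (W - D) := mul_le_mul_of_nonneg_left a1 hQ0.le

/-- if `c V ≤ |X|`, `1 ≤ L c`, `L^2 ≤ A`, `T ≤ V`, then `T^2 ≤ A X^2`. -/
theorem fin {A L c V T X : ℝ} (hL : 0 < L) (hc : 1 ≤ L * c) (hA : L ^ 2 ≤ A) (hT : 0 ≤ T)
    (hTV : T ≤ V) (h : c * V ≤ |X|) : T ^ 2 ≤ A * X ^ 2 := by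
  have hV : 0 ≤ V := le_trans hT hTV
  have k1 : V ≤ L * |X| := by
    calc V = 1 * V := (one_mul _).symm
      _ ≤ (L * c) * V := mul_le_mul_of_nonneg_right hc hV
      _ = L * (c * V) := by ring
      _ ≤ L * |X| := mul_le_mul_of_nonneg_left h hL.le
  have k3 : T ^ 2 ≤ (L * |X|) ^ 2 := pow_le_pow_left₀ hT (le_trans hTV k1) 2
  rw [mul_pow, sq_abs] at k3
  exact le_trans k3 (mul_le_mul_of_nonneg_right hA (sq_nonneg _))

/-- The common facts. -/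
theorem facts {n : ℕ} (hn : 3 ≤ n) {A z Z Q C ζ : ℝ}
    (hA : 1000 * (n : ℝ) ≤ A) (hz : 1000 * A ≤ z)
    (hZ1 : z ^ n - n * z ^ (n - 2) ≤ Z) (hZ2 : Z ≤ z ^ n) (hQ : A ≤ Q)
    (hC1 : (Q ^ 3 - 3 * Q - 1) ^ n ≤ C) (hC2 : C ≤ (Q ^ 3 - 3 * Q) ^ n)
    (hζ0 : 0 < ζ) (hζ : ζ ^ n = z ^ n * (1 + n / A)) :
    ∃ V U D W : ℝ, V = ζ ^ (3 * n) ∧ U = (Q - 1 / n) ^ (3 * n) ∧ 0 < V ∧ 0 < U ∧ 0 < Z ^ 3 ∧
      W ≤ V ∧ V * (1 - 3 * n / z ^ 2) ≤ W ∧ Z ^ 3 ≤ W ∧ D ≤ U ∧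
      U * (1 - (4 * n + 9) / Q ^ 2) ≤ D ∧ z ≤ ζ ∧ ζ ≤ z * (1 + 1 / 100) ∧
      V ≤ 2 * Z ^ 3 ∧
      qD (n : ℝ) A Z Q C = A ^ 6 * ((Z ^ 3) ^ 2 - A * (Q * (D - W)) ^ 2) := by
  have hn' : (3 : ℝ) ≤ n := by exact_mod_cast hn
  have hn0 : (0 : ℝ) < n := by linarith
  have hA0 : 0 < A := by linarith
  have hAn : 100 * (n : ℝ) ≤ A := by linarith
  have hQ0 : 0 < Q := by linarith
  have hz0 : 0 < z := by linarith
  have hzn : 100 * (n : ℝ) ≤ z := by linarith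
  obtain ⟨hZ0, hW1, hW2⟩ := W_bounds hn hzn hZ1 hZ2
  obtain ⟨hζ1, hζ2⟩ := zeta_le hn hAn hz0 hζ0 hζ
  have hV := V_eq (n := n) hζ
  have hD2 := D_le_U hn (by linarith) hC2
  have hD1 := U_le_D hn (by linarith) hC1
  have hnA : 0 < (n : ℝ) / A := by positivity
  have hnA1 : (n : ℝ) / A ≤ 1 / 100 := by
    rw [div_le_iff₀ hA0]
    linarith
  have hk3 : (1 : ℝ) ≤ (1 + n / A) ^ 3 := one_le_pow₀ (by linarith)
  have hk4 : (1 + (n : ℝ) / A) ^ 3 ≤ (1 + 1 / 100) ^ 3 :=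
    pow_le_pow_left₀ (by linarith) (by linarith) 3
  have hq1 : 0 < Q - 1 / n := by
    have : 1 / (n : ℝ) ≤ 1 := by
      rw [div_le_one hn0]
      linarith
    linarith
  have hZ3 : 0 < Z ^ 3 := by positivity
  refine ⟨ζ ^ (3 * n), (Q - 1 / n) ^ (3 * n), C * (1 - 3 / Q), Z ^ 3 * (1 + n / A) ^ 3, rfl, rfl,
    by positivity, by positivity, by positivity, ?_, ?_, ?_, hD2, hD1, hζ1, ?_, ?_,
    qD_eq hA0.ne' hQ0.ne'⟩
  · rw [hV]
    exact mul_le_mul_of_nonneg_right hW2 (by positivity)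
  · rw [hV]
    calc z ^ (3 * n) * (1 + n / A) ^ 3 * (1 - 3 * n / z ^ 2)
        = z ^ (3 * n) * (1 - 3 * n / z ^ 2) * (1 + n / A) ^ 3 := by ring
      _ ≤ Z ^ 3 * (1 + n / A) ^ 3 := mul_le_mul_of_nonneg_right hW1 (by positivity)
  · calc Z ^ 3 = Z ^ 3 * 1 := (mul_one _).symm
      _ ≤ _ := mul_le_mul_of_nonneg_left hk3 hZ3.le
  · exact le_trans hζ2 (mul_le_mul_of_nonneg_left (by linarith) hz0.le)
  · rw [hV]
    have hz3 : 0 < z ^ (3 * n) := by positivity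
    have c1 : 3 * (n : ℝ) / z ^ 2 ≤ 1 / 100 := by
      rw [div_le_iff₀ (by positivity)]
      have : z * 1 ≤ z * z := mul_le_mul_of_nonneg_left (by linarith) hz0.le
      rw [sq]
      linarith
    have c2 : z ^ (3 * n) * (99 / 100) ≤ Z ^ 3 :=
      le_trans (mul_le_mul_of_nonneg_left (by linarith) hz3.le) hW1
    calc z ^ (3 * n) * (1 + n / A) ^ 3 ≤ z ^ (3 * n) * (1 + 1 / 100) ^ 3 :=
          mul_le_mul_of_nonneg_left hk4 hz3.le
      _ ≤ z ^ (3 * n) * (99 / 100) * 2 := by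
          norm_num
          linarith
      _ ≤ 2 * Z ^ 3 := by linarith

end Ineq

open Ineq

theorem ineq_sound {n : ℕ} (hn : 3 ≤ n) {A z Z Q C ζ : ℝ}
    (hA : ((100 : ℝ) ^ n * (n : ℝ) ^ (2 * n)) ^ 2 ≤ A) (hz : A ^ 2 ≤ z)
    (hZ1 : z ^ n - n * z ^ (n - 2) ≤ Z) (hZ2 : Z ≤ z ^ n) (hQ : A ≤ Q)
    (hC1 : (Q ^ 3 - 3 * Q - 1) ^ n ≤ C) (hC2 : C ≤ (Q ^ 3 - 3 * Q) ^ n)
    (hζ0 : 0 < ζ) (hζ : ζ ^ n = z ^ n * (1 + n / A))
    (h : 0 < qD (n : ℝ) A Z Q C) :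
    |Q - 1 / n - ζ| < 1 / (2 * (n.factorial : ℝ)) := by
  have hn' : (3 : ℝ) ≤ n := by exact_mod_cast hn
  have hn0 : (0 : ℝ) < n := by linarith
  have hf1 : (1 : ℝ) ≤ n.factorial := by exact_mod_cast Nat.factorial_pos n
  have hL := size_L hn
  obtain ⟨L, hLdef⟩ : ∃ L, L = (100 : ℝ) ^ n * (n : ℝ) ^ (2 * n) := ⟨_, rfl⟩
  obtain ⟨f, hfdef⟩ : ∃ f, f = (n.factorial : ℝ) := ⟨_, rfl⟩
  rw [← hLdef] at hA hL
  rw [← hfdef] at hL hf1 ⊢
  have hnf : (n : ℝ) * 1 ≤ n * f := mul_le_mul_of_nonneg_left hf1 hn0.le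
  have hff : 1 * f ≤ n * f := mul_le_mul_of_nonneg_right (by linarith) (by linarith)
  have hL1 : 1000 * (n : ℝ) ≤ L := by linarith
  have hL2 : 1000 * f ≤ L := by linarith
  have hL0 : 0 < L := by linarith
  have hAL : 1000 * L ≤ A := by
    have : 1000 * L ≤ L * L := mul_le_mul_of_nonneg_right (by linarith) hL0.le
    rw [sq] at hA
    linarith
  have hA0 : 0 < A := by linarith
  have hzA : 1000 * A ≤ z := by
    have : 1000 * A ≤ A * A := mul_le_mul_of_nonneg_right (by linarith) hA0.le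
    rw [sq] at hz
    linarith
  obtain ⟨V, U, D, W, hV, hU, hV0, hU0, hZ3, hWV, hVW, hZW, hDU, hUD, hζ1, hζ2, -, hqD⟩ :=
    facts hn (by linarith) hzA hZ1 hZ2 hQ hC1 hC2 hζ0 hζ
  have hQ0 : 0 < Q := by linarith
  have hz0 : 0 < z := by linarith
  rw [hqD] at h
  have h' : A * (Q * (D - W)) ^ 2 < (Z ^ 3) ^ 2 := by
    have h6 : 0 < A ^ 6 := by positivity
    have := (mul_pos_iff_of_pos_left h6).mp h
    linarith
  by_contra hcon
  push Not at hcon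
  obtain ⟨d, hd⟩ : ∃ d, d = 1 / (2 * f) := ⟨_, rfl⟩
  rw [← hd] at hcon
  have hd0 : 0 < d := by rw [hd]; positivity
  have hd1 : d ≤ 1 := by
    rw [hd, div_le_one (by positivity)]
    linarith
  have hdL : 500 ≤ L * d := by
    rw [hd, mul_one_div, le_div_iff₀ (by positivity)]
    linarith
  have hLc : 1 ≤ L * (n * d) := by
    have : 1 * (L * d) ≤ n * (L * d) := mul_le_mul_of_nonneg_right (by linarith) (by linarith)
    linarith
  have hinv : 1 / (n : ℝ) ≤ 1 := by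
    rw [div_le_one hn0]
    linarith
  have hinv0 : 0 < 1 / (n : ℝ) := by positivity
  refine absurd h' (not_lt.mpr (fin hL0 hLc hA hZ3.le (le_trans hZW hWV) ?_))
  have hAd : 500 ≤ A * d := by
    have : L * d ≤ A * d := mul_le_mul_of_nonneg_right (by linarith) hd0.le
    linarith
  rcases le_total 0 (Q - 1 / n - ζ) with hs | hs
  · rw [abs_of_nonneg hs] at hcon
    have u1 : ζ * (1 + d / ζ) ≤ Q - 1 / n := by
      have : ζ * (1 + d / ζ) = ζ + d := by field_simp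
      rw [this]
      linarith
    have hdz : 0 < d / ζ := by positivity
    have u2 : V * (1 + 3 * n * (d / ζ)) ≤ U := by
      calc V * (1 + 3 * n * (d / ζ)) ≤ V * (1 + d / ζ) ^ (3 * n) := by
            apply mul_le_mul_of_nonneg_left _ hV0.le
            have := one_add_mul_le_pow (a := d / ζ) (by linarith) (3 * n)
            push_cast at this
            exact this
        _ = (ζ * (1 + d / ζ)) ^ (3 * n) := by rw [mul_pow, hV]
        _ ≤ U := by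
          rw [hU]
          exact pow_le_pow_left₀ (by positivity) u1 _
    refine le_trans ?_ (le_abs_self _)
    refine case1 hn' hd0 hd1 (by linarith) (by linarith) (by linarith) ?_ u2 hUD hWV hV0
    have : A * d ≤ Q * d := mul_le_mul_of_nonneg_right hQ hd0.le
    have : n * 500 ≤ n * (Q * d) := mul_le_mul_of_nonneg_left (by linarith) hn0.le
    have e : n * d * Q = n * (Q * d) := by ring
    rw [e]
    linarith
  · rw [abs_of_nonpos hs] at hcon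
    have hq1 : 0 < Q - 1 / n := by linarith
    have u1 : (Q - 1 / n) * (1 + d / Q) ≤ ζ := by
      have e : (Q - 1 / n) * (1 + d / Q) = (Q - 1 / n) + d - d / (n * Q) := by
        field_simp
        ring
      have : 0 < d / (n * Q) := by positivity
      rw [e]
      linarith
    have hdz : 0 < d / Q := by positivity
    have u2 : U * (1 + 3 * n * (d / Q)) ≤ V := by
      calc U * (1 + 3 * n * (d / Q)) ≤ U * (1 + d / Q) ^ (3 * n) := by
            apply mul_le_mul_of_nonneg_left _ hU0.le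
            have := one_add_mul_le_pow (a := d / Q) (by linarith) (3 * n)
            push_cast at this
            exact this
        _ = ((Q - 1 / n) * (1 + d / Q)) ^ (3 * n) := by rw [mul_pow, hU]
        _ ≤ V := by
          rw [hV]
          exact pow_le_pow_left₀ (by positivity) u1 _
    refine le_trans ?_ (neg_le_abs _)
    have e : -(Q * (D - W)) = Q * (W - D) := by ring
    rw [e]
    refine case2 hn' hd0 hd1 (by linarith) (by linarith) ?_ u2 hDU hU0 hVW hV0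
    have : A * d ≤ z * d := mul_le_mul_of_nonneg_right (by linarith) hd0.le
    linarith

end Pool.Agent.Helper50.PR
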