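import Mathlib
import Pool.Agent.Helper50.PR.Defs
import Pool.Agent.Helper73.PR.Ineq

/-!
# The second real inequality for the prime-representing polynomial (PR-6)
-/

open Finset

namespace Pool.Agent.Helper50.PR

namespace Ineq

theorem size_M {n : ℕ} (hn : 3 ≤ n) :
    100 * ((n : ℝ) * (2 * (n : ℝ)) ^ (n + 1)) ≤ (100 : ℝ) ^ n * (n : ℝ) ^ (2 * n) := by
  obtain ⟨m, rfl⟩ : ∃ m, n = m + 3 := ⟨n - 3, by omega⟩
  have hn' : (1 : ℝ) ≤ ((m + 3 : ℕ) : ℝ) := by
    have : 1 ≤ m + 3 := by omega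
    exact_mod_cast this
  obtain ⟨N, hN⟩ : ∃ N : ℝ, N = ((m + 3 : ℕ) : ℝ) := ⟨_, rfl⟩
  rw [← hN] at hn' ⊢
  have h1 : (2 : ℝ) ^ m ≤ 100 ^ m := pow_le_pow_left₀ (by norm_num) (by norm_num) m
  have h2 : N ^ (m + 5) ≤ N ^ (2 * (m + 3)) := pow_le_pow_right₀ hn' (by omega)
  have e1 : 100 * (N * (2 * N) ^ (m + 3 + 1)) = (1600 * 2 ^ m) * N ^ (m + 5) := by
    rw [mul_pow]
    ring
  have e2 : (100 : ℝ) ^ (m + 3) = 1000000 * 100 ^ m := by ring
  rw [e1, e2]
  apply mul_le_mul _ h2 (by positivity) (by positivity)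
  have : (0 : ℝ) < 100 ^ m := by positivity
  linarith

theorem case3 {n ζ z A Q τ V U D W : ℝ} (hn : 3 ≤ n) (hτ0 : 0 ≤ τ) (hτ1 : 6 * n * τ ≤ ζ)
    (hQζ : Q ≤ 2 * ζ) (hQz : Q ≤ 2 * z) (hAQ : A ≤ Q) (hA : 4 * n + 9 ≤ A) (hAz : 6 * A ≤ z)
    (hζ0 : 0 < ζ)
    (hUV : U * (1 - 3 * n * (τ / ζ)) ≤ V) (hVU : V * (1 - 3 * n * (τ / ζ)) ≤ U)
    (hD1 : U * (1 - (4 * n + 9) / Q ^ 2) ≤ D) (hD2 : D ≤ U)
    (hVW : V * (1 - 3 * n / z ^ 2) ≤ W)
    (hWV : W ≤ V) (hV : 0 < V) (hU : 0 < U) :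
    |Q * (D - W)| ≤ V * (12 * (n * τ) + (5 * n + 9) / A) := by
  have hA0 : 0 < A := by linarith
  have hQ0 : 0 < Q := by linarith
  have hz0 : 0 < z := by linarith
  obtain ⟨p, hp⟩ : ∃ s, s = 3 * n * (τ / ζ) := ⟨_, rfl⟩
  obtain ⟨r, hr⟩ : ∃ r, r = (4 * n + 9) / Q ^ 2 := ⟨_, rfl⟩
  obtain ⟨q, hq⟩ : ∃ r, r = 3 * n / z ^ 2 := ⟨_, rfl⟩
  rw [← hp] at hUV hVU
  rw [← hr] at hD1
  rw [← hq] at hVW
  have hp0 : 0 ≤ p := by rw [hp]; positivity
  have hr0 : 0 ≤ r := by rw [hr]; positivity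
  have hq0 : 0 ≤ q := by rw [hq]; positivity
  have hp1 : p ≤ 1 / 2 := by
    rw [hp, mul_div_assoc', div_le_iff₀ hζ0]
    linarith
  have hr1 : r ≤ 1 := by
    rw [hr, div_le_one (by positivity)]
    have : Q * 1 ≤ Q * Q := mul_le_mul_of_nonneg_left (by linarith) hQ0.le
    rw [sq]
    linarith
  have u1 : U ≤ V * (1 + 2 * p) := by
    calc U = U * 1 := (mul_one _).symm
      _ ≤ U * ((1 - p) * (1 + 2 * p)) := by
        apply mul_le_mul_of_nonneg_left _ hU.le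
        have : p * p ≤ p * (1 / 2) := mul_le_mul_of_nonneg_left hp1 hp0
        linarith
      _ = (U * (1 - p)) * (1 + 2 * p) := by ring
      _ ≤ V * (1 + 2 * p) := mul_le_mul_of_nonneg_right hUV (by linarith)
  have hQp : Q * p ≤ 6 * (n * τ) := by
    rw [hp, mul_div_assoc', mul_div_assoc', div_le_iff₀ hζ0]
    have : Q * (3 * n * τ) ≤ 2 * ζ * (3 * n * τ) :=
      mul_le_mul_of_nonneg_right hQζ (by positivity)
    linarith
  have hQq : Q * q ≤ n / A := by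
    have h1 : Q * q ≤ 6 * n / z := by
      rw [hq, mul_div_assoc', div_le_div_iff₀ (by positivity) hz0]
      have : Q * (3 * n * z) ≤ 2 * z * (3 * n * z) :=
        mul_le_mul_of_nonneg_right hQz (by positivity)
      have e : 6 * n * z ^ 2 = 2 * z * (3 * n * z) := by ring
      rw [e]
      linarith
    refine le_trans h1 ?_
    rw [div_le_div_iff₀ hz0 hA0]
    have : n * (6 * A) ≤ n * z := mul_le_mul_of_nonneg_left hAz (by linarith)
    linarith
  have hQr : Q * r ≤ (4 * n + 9) / A := by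
    have h1 : Q * r = (4 * n + 9) / Q := by
      rw [hr]
      field_simp
    rw [h1]
    exact div_le_div_of_nonneg_left (by linarith) hA0 hAQ
  have eA : (5 * n + 9) / A = n / A + (4 * n + 9) / A := by
    rw [← add_div]
    ring
  have hnA : 0 < n / A := by positivity
  have hnA2 : 0 < (4 * n + 9) / A := by positivity
  have hnt : 0 ≤ n * τ := by positivity
  rw [abs_le]
  constructor
  · have d1 : V * (1 - p - r) ≤ D := by
      have d2 : V * (1 - p) * (1 - r) ≤ D :=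
        le_trans (mul_le_mul_of_nonneg_right hVU (by linarith)) hD1
      refine le_trans ?_ d2
      rw [mul_assoc]
      apply mul_le_mul_of_nonneg_left _ hV.le
      have : 0 ≤ p * r := mul_nonneg hp0 hr0
      linarith
    have d3 : -(V * (p + r)) ≤ D - W := by
      have : V * (1 - p - r) = V - V * (p + r) := by ring
      linarith
    have d4 : Q * (-(V * (p + r))) ≤ Q * (D - W) := mul_le_mul_of_nonneg_left d3 hQ0.le
    have d5 : V * (Q * p + Q * r) ≤ V * (12 * (n * τ) + (5 * n + 9) / A) := by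
      apply mul_le_mul_of_nonneg_left _ hV.le
      rw [eA]
      linarith
    have e : Q * (-(V * (p + r))) = -(V * (Q * p + Q * r)) := by ring
    linarith
  · have d3 : D - W ≤ V * (2 * p + q) := by
      have : V * (2 * p + q) = V * (1 + 2 * p) - V * (1 - q) := by ring
      linarith
    have d4 : Q * (D - W) ≤ Q * (V * (2 * p + q)) := mul_le_mul_of_nonneg_left d3 hQ0.le
    have d5 : V * (2 * (Q * p) + Q * q) ≤ V * (12 * (n * τ) + (5 * n + 9) / A) := by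
      apply mul_le_mul_of_nonneg_left _ hV.le
      rw [eA]
      linarith
    have e : Q * (V * (2 * p + q)) = V * (2 * (Q * p) + Q * q) := by ring
    linarith

theorem pow_near {k : ℕ} {s : ℝ} (hs0 : 0 ≤ s) (hs1 : s ≤ 1) : (1 + s) ^ k * (1 - k * s) ≤ 1 := by
  have h1 : 1 - k * s ≤ (1 - s) ^ k := by
    have := one_add_mul_le_pow (a := -s) (by linarith) k
    have e1 : 1 + (k : ℝ) * (-s) = 1 - k * s := by ring
    have e2 : (1 + (-s)) = 1 - s := by ring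
    rw [e1, e2] at this
    exact this
  calc (1 + s) ^ k * (1 - k * s) ≤ (1 + s) ^ k * (1 - s) ^ k :=
        mul_le_mul_of_nonneg_left h1 (by positivity)
    _ = ((1 + s) * (1 - s)) ^ k := by rw [mul_pow]
    _ ≤ 1 ^ k := by
      apply pow_le_pow_left₀
      · apply mul_nonneg <;> linarith
      · have : 0 ≤ s * s := mul_nonneg hs0 hs0
        linarith
    _ = 1 := one_pow _

end Ineq

open Ineq

theorem ineq_complete {n : ℕ} (hn : 3 ≤ n) {A z Z Q C ζ : ℝ}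
    (hA : ((100 : ℝ) ^ n * (n : ℝ) ^ (2 * n)) ^ 2 ≤ A) (hz : A ^ 2 ≤ z)
    (hZ1 : z ^ n - n * z ^ (n - 2) ≤ Z) (hZ2 : Z ≤ z ^ n) (hQ : A ≤ Q)
    (hC1 : (Q ^ 3 - 3 * Q - 1) ^ n ≤ C) (hC2 : C ≤ (Q ^ 3 - 3 * Q) ^ n)
    (hζ0 : 0 < ζ) (hζ : ζ ^ n = z ^ n * (1 + n / A))
    (h : |Q - 1 / n - ζ| ≤ 2 * (2 * (n : ℝ)) ^ (n + 1) / A) :
    0 < qD (n : ℝ) A Z Q C := by
  have hn' : (3 : ℝ) ≤ n := by exact_mod_cast hn
  have hn0 : (0 : ℝ) < n := by linarith
  have hLM := size_M hn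
  obtain ⟨L, hLdef⟩ : ∃ L, L = (100 : ℝ) ^ n * (n : ℝ) ^ (2 * n) := ⟨_, rfl⟩
  obtain ⟨K, hK⟩ : ∃ K, K = (2 * (n : ℝ)) ^ (n + 1) := ⟨_, rfl⟩
  rw [← hLdef] at hA hLM
  rw [← hK] at hLM h
  have hK1 : 36 * n ≤ K := by
    rw [hK]
    calc (36 : ℝ) * n ≤ 2 * n * (2 * n) * (2 * n) * (2 * n) := by
          have h1 : (3 : ℝ) * 3 ≤ n * n := mul_le_mul hn' hn' (by norm_num) (by linarith)
          have h2 : (3 : ℝ) * (3 * 3) ≤ n * (n * n) :=
            mul_le_mul hn' h1 (by norm_num) (by linarith)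
          have h3 : (n : ℝ) * (3 * (3 * 3)) ≤ n * (n * (n * n)) :=
            mul_le_mul_of_nonneg_left h2 hn0.le
          linarith
      _ = (2 * (n : ℝ)) ^ 4 := by ring
      _ ≤ (2 * (n : ℝ)) ^ (n + 1) := pow_le_pow_right₀ (by linarith) (by omega)
  have hK0 : 0 < K := by linarith
  have hnK : 3 * K ≤ n * K := mul_le_mul_of_nonneg_right hn' hK0.le
  have hL1 : 10000 * (n : ℝ) ≤ L := by linarith
  have hL0 : 0 < L := by linarith
  have hLA : L * L ≤ A := by rw [← sq]; exact hA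
  have hAL : 1000 * L ≤ A := by
    have : 1000 * L ≤ L * L := mul_le_mul_of_nonneg_right (by linarith) hL0.le
    linarith
  have hA0 : 0 < A := by linarith
  have hzA : 1000 * A ≤ z := by
    have : 1000 * A ≤ A * A := mul_le_mul_of_nonneg_right (by linarith) hA0.le
    rw [sq] at hz
    linarith
  obtain ⟨V, U, D, W, hV, hU, hV0, hU0, hZ3, hWV, hVW, hZW, hDU, hUD, hζ1, hζ2, hVZ, hqD⟩ :=
    facts hn (by linarith) hzA hZ1 hZ2 hQ hC1 hC2 hζ0 hζ
  have hQ0 : 0 < Q := by linarith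
  have hz0 : 0 < z := by linarith
  obtain ⟨τ, hτ⟩ : ∃ τ, τ = 2 * K / A := ⟨_, rfl⟩
  rw [← hτ] at h
  have hτ0 : 0 ≤ τ := by rw [hτ]; positivity
  have hτn : n * τ ≤ 1 := by
    rw [hτ, mul_div_assoc', div_le_one hA0]
    linarith
  have hτ1 : τ ≤ 1 := by
    have : 3 * τ ≤ n * τ := mul_le_mul_of_nonneg_right hn' hτ0
    linarith
  have hinv : 1 / (n : ℝ) ≤ 1 := by
    rw [div_le_one hn0]
    linarith
  have hinv0 : 0 < 1 / (n : ℝ) := by positivity
  rw [abs_le] at h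
  obtain ⟨hs1, hs2⟩ := h
  have hq1 : 0 < Q - 1 / n := by linarith
  have hsz : τ / ζ ≤ 1 := by
    rw [div_le_one hζ0]
    linarith
  have hsz0 : 0 ≤ τ / ζ := by positivity
  have hUV : U * (1 - 3 * n * (τ / ζ)) ≤ V := by
    have u1 : U ≤ V * (1 + τ / ζ) ^ (3 * n) := by
      rw [hU, hV, ← mul_pow]
      apply pow_le_pow_left₀ hq1.le
      have e : ζ * (1 + τ / ζ) = ζ + τ := by field_simp
      rw [e]
      linarith
    have u2 := pow_near (k := 3 * n) hsz0 hsz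
    push_cast at u2
    have u3 : 0 ≤ 1 - 3 * n * (τ / ζ) := by
      have : 3 * n * (τ / ζ) ≤ 1 := by
        rw [mul_div_assoc', div_le_one hζ0]
        linarith
      linarith
    calc U * (1 - 3 * n * (τ / ζ)) ≤ (V * (1 + τ / ζ) ^ (3 * n)) * (1 - 3 * n * (τ / ζ)) :=
          mul_le_mul_of_nonneg_right u1 u3
      _ = V * ((1 + τ / ζ) ^ (3 * n) * (1 - 3 * n * (τ / ζ))) := by ring
      _ ≤ V * 1 := mul_le_mul_of_nonneg_left u2 hV0.le
      _ = V := mul_one _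
  have hVU : V * (1 - 3 * n * (τ / ζ)) ≤ U := by
    have u2 := one_add_mul_le_pow (a := -(τ / ζ)) (by linarith) (3 * n)
    push_cast at u2
    have e1 : 1 + 3 * (n : ℝ) * (-(τ / ζ)) = 1 - 3 * n * (τ / ζ) := by ring
    have e2 : 1 + (-(τ / ζ)) = 1 - τ / ζ := by ring
    rw [e1, e2] at u2
    calc V * (1 - 3 * n * (τ / ζ)) ≤ V * (1 - τ / ζ) ^ (3 * n) :=
          mul_le_mul_of_nonneg_left u2 hV0.le
      _ = (ζ * (1 - τ / ζ)) ^ (3 * n) := by rw [mul_pow, hV]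
      _ ≤ U := by
        rw [hU]
        apply pow_le_pow_left₀
        · exact mul_nonneg hζ0.le (by linarith)
        · have e : ζ * (1 - τ / ζ) = ζ - τ := by field_simp
          rw [e]
          linarith
  have key := case3 (A := A) hn' hτ0 (by linarith) (by linarith) (by linarith) hQ (by linarith)
    (by linarith) hζ0 hUV hVU hUD hDU hVW hWV hV0 hU0
  have key2 : |Q * (D - W)| ≤ Z ^ 3 * (2 * (24 * (n * K) + (5 * n + 9)) / A) := by
    refine le_trans key ?_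
    have e : 12 * (n * τ) + (5 * n + 9) / A = (24 * (n * K) + (5 * n + 9)) / A := by
      rw [hτ]
      field_simp
      ring
    rw [e]
    have h0 : 0 ≤ (24 * (n * K) + (5 * n + 9)) / A := by positivity
    calc V * ((24 * (n * K) + (5 * n + 9)) / A)
        ≤ (2 * Z ^ 3) * ((24 * (n * K) + (5 * n + 9)) / A) :=
          mul_le_mul_of_nonneg_right hVZ h0
      _ = _ := by ring
  obtain ⟨B, hB⟩ : ∃ B, B = 2 * (24 * (n * K) + (5 * n + 9)) := ⟨_, rfl⟩
  rw [← hB] at key2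
  have hB0 : 0 ≤ B := by rw [hB]; positivity
  have hBL : B < L := by
    rw [hB]
    linarith
  have key3 : (Q * (D - W)) ^ 2 ≤ (Z ^ 3 * (B / A)) ^ 2 := by
    rw [← sq_abs (Q * (D - W))]
    exact pow_le_pow_left₀ (abs_nonneg _) key2 2
  rw [hqD]
  apply mul_pos (by positivity)
  rw [sub_pos]
  have hBB : B * B < A := by
    have : B * B < L * L := mul_self_lt_mul_self hB0 hBL
    linarith
  calc A * (Q * (D - W)) ^ 2 ≤ A * (Z ^ 3 * (B / A)) ^ 2 :=
        mul_le_mul_of_nonneg_left key3 hA0.le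
    _ = (Z ^ 3) ^ 2 * (B * B / A) := by
        field_simp
    _ < (Z ^ 3) ^ 2 * 1 := by
        apply mul_lt_mul_of_pos_left _ (by positivity)
        rw [div_lt_one hA0]
        exact hBB
    _ = (Z ^ 3) ^ 2 := mul_one _

end Pool.Agent.Helper50.PR
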